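import Pool.Agent.Lib.MP_fdf47d_co.Affine

/-!
# Incidences of grids with lines in prime-order planes

For a prime `p`, `1 ≤ A ≤ B ≤ p`, a grid `P = {u + i v + j w : 0 ≤ i < A, 0 ≤ j < B}` in
`F_p²` (`v, w` linearly independent) and `n ≤ p² + p`, the maximal number of incidences of `P`
with `n` lines is, up to absolute constants,
`min (A B p, min (n B, A B) + min (n A, (A B n)^(2/3)) + n + A B n / p)`.
The upper bound holds for every subset of `P`.
-/

set_option autoImplicit false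

open Finset Pool.Agent.Lib.MP_fdf47d_co

namespace Pool.Agent.Results.MP_fdf47d_co.GridIncidences

/-- the order of magnitude -/
noncomputable def order (p A B n : ℕ) : ℝ :=
  min ((A : ℝ) * B * p)
    (min ((n : ℝ) * B) ((A : ℝ) * B) + min ((n : ℝ) * A) (((A : ℝ) * B * n) ^ (2 / 3 : ℝ)) + n +
      (A : ℝ) * B * n / p)

theorem result (p : ℕ) [Fact p.Prime] (A B n : ℕ) (hA : 1 ≤ A) (hAB : A ≤ B) (hB : B ≤ p)
    (hn : n ≤ p ^ 2 + p) (u v w : ZMod p × ZMod p) (hvw : v.1 * w.2 - v.2 * w.1 ≠ 0) :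
    (∀ P ⊆ grid u v w A B, ∀ L : Finset (Set (ZMod p × ZMod p)), (∀ l ∈ L, IsLine l) →
      L.card = n →
        (inc P L : ℝ) ≤ 8 * order p A B n ∧
        (inc P L : ℝ) ≤ 8 * ((A : ℝ) * B * n) ^ (2 / 3 : ℝ) + 2 * ((A : ℝ) * B) + n +
          8 * ((A : ℝ) * B * n / p)) ∧
    ∃ L : Finset (Set (ZMod p × ZMod p)), (∀ l ∈ L, IsLine l) ∧ L.card = n ∧
      order p A B n ≤ 260 * (inc (grid u v w A B) L : ℝ) := by
  have hx : (0 : ℝ) ≤ (A : ℝ) * B * n := by positivity
  have hT : (0 : ℝ) ≤ ((A : ℝ) * B * n) ^ (2 / 3 : ℝ) := Real.rpow_nonneg hx _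
  have hT3 := rpow_cube hx
  refine ⟨?_, ?_⟩
  · intro P hP L hL hLn
    obtain ⟨L', hL', hc, hle⟩ := inc_le_pull hvw A B P hP L hL
    have hleR : (inc P L : ℝ) ≤ ((∑ l ∈ L', (pts A B l).card : ℕ) : ℝ) := by exact_mod_cast hle
    constructor
    · exact hleR.trans (box_upper' A B n hAB hB L' hL' (hc.trans hLn) _ hT hT3)
    · have h := box_upper A B (hAB.trans hB) hB L' hL' _ hT (by rw [hc, hLn]; exact hT3)
      rw [hc, hLn] at h
      have e : 8 * ((A : ℝ) * B) * n / p = 8 * ((A : ℝ) * B * n / p) := by ring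
      linarith
  · obtain ⟨L, hL, hLn, hle⟩ := box_lower A B n hA hAB hB hn _ hT hT3
    obtain ⟨L', hL', hc, hle'⟩ := push_le_inc (u := u) hvw A B (hAB.trans hB) hB L hL
    refine ⟨L', hL', hc.trans hLn, ?_⟩
    have hleR : ((∑ l ∈ L, (pts A B l).card : ℕ) : ℝ) ≤ (inc (grid u v w A B) L' : ℝ) := by
      exact_mod_cast hle'
    unfold psi at hle
    unfold order
    linarith

end Pool.Agent.Results.MP_fdf47d_co.GridIncidences
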