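import Mathlib
import Pool.Agent.Lib.MP_fdf47d_co.SD.Main

/-!
# Szemerédi–Trotter in prime planes for point sets of small doubling
-/

namespace Pool.Agent.Results.MP_fdf47d_co.SmallDoubling

open Finset
open scoped Pointwise

/-- A line of the plane over `ZMod p`: the set of all zeros of `a x + b y + c`, `(a, b) ≠ (0, 0)`. -/
def IsLine {p : ℕ} (ℓ : Finset (ZMod p × ZMod p)) : Prop :=
  ∃ a b c : ZMod p, (a, b) ≠ (0, 0) ∧
    ∀ z : ZMod p × ZMod p, z ∈ ℓ ↔ a * z.1 + b * z.2 + c = 0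

/-- The number of incidences. -/
def inc {p : ℕ} (P : Finset (ZMod p × ZMod p)) (L : Finset (Finset (ZMod p × ZMod p))) : ℕ :=
  ((P ×ˢ L).filter fun q => q.1 ∈ q.2).card

/-- The line `y = a x + b`. -/
def graph {p : ℕ} [Fact p.Prime] (q : ZMod p × ZMod p) : Finset (ZMod p × ZMod p) :=
  univ.filter fun z => z.2 = q.1 * z.1 + q.2

/-- The order of magnitude. -/
noncomputable def T (p m n : ℕ) : ℝ :=
  min (((m : ℝ) * n) ^ (2 / 3 : ℝ) + m + n + (m : ℝ) * n / p) (min ((m : ℝ) * p) ((n : ℝ) * p))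

theorem result (K : ℝ) : ∃ C : ℝ, 0 < C ∧
    ∀ (p : ℕ) [Fact p.Prime] (m n : ℕ), 1 ≤ m → 1 ≤ n → m ≤ p ^ 2 → n ≤ p ^ 2 + p →
      (∀ (P : Finset (ZMod p × ZMod p)) (L : Finset (Finset (ZMod p × ZMod p))),
        P.card = m → L.card = n → (∀ ℓ ∈ L, IsLine ℓ) →
        (((P + P).card : ℝ) ≤ K * P.card ∨
          ∃ S : Finset (ZMod p × ZMod p), L = S.image graph ∧ ((S + S).card : ℝ) ≤ K * S.card) →
        (inc P L : ℝ) ≤ C * T p m n) ∧
      (6 ≤ K → ∃ (P : Finset (ZMod p × ZMod p)) (L : Finset (Finset (ZMod p × ZMod p))),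
        P.card = m ∧ L.card = n ∧ (∀ ℓ ∈ L, IsLine ℓ) ∧ ((P + P).card : ℝ) ≤ K * P.card ∧
        T p m n / 256 ≤ inc P L) := by
  obtain ⟨C, hC, hU⟩ := Pool.Agent.Lib.MP_fdf47d_co.SD.upper K
  have hT : ∀ p m n : ℕ, Pool.Agent.Lib.MP_fdf47d_co.SD.TT p m n =
      ((m : ℝ) * n) ^ (2 / 3 : ℝ) + m + n + (m : ℝ) * n / p := by
    intro p m n
    rw [Pool.Agent.Lib.MP_fdf47d_co.SD.TT, Real.mul_rpow (by positivity) (by positivity)]
    ring
  have hTsymm : ∀ p m n : ℕ, T p m n = T p n m := by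
    intro p m n
    unfold T
    rw [min_comm ((m : ℝ) * p), mul_comm (m : ℝ) n]
    congr 1
    ring
  have key : ∀ (p : ℕ) [Fact p.Prime] (m n : ℕ), 1 ≤ m →
      ∀ (P : Finset (ZMod p × ZMod p)) (L : Finset (Finset (ZMod p × ZMod p))),
        P.card = m → ((P + P).card : ℝ) ≤ K * m → L.card = n → (∀ ℓ ∈ L, IsLine ℓ) →
        (inc P L : ℝ) ≤ 2 * C * T p m n := by
    intro p _ m n hm P L hP hPP hL hl
    have hne : P.Nonempty := by rw [← card_pos]; omega
    have h1 : (inc P L : ℝ) ≤ C * Pool.Agent.Lib.MP_fdf47d_co.SD.TT p m n := by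
      have := hU p P hne (by rw [hP]; exact hPP) L hl
      rw [hP, hL] at this
      have h2 : inc P L = ∑ ℓ ∈ L, (P ∩ ℓ).card := Pool.Agent.Lib.MP_fdf47d_co.SD.inc_eq_sum P L
      rw [h2]; push_cast; exact this
    have h2 : (inc P L : ℝ) ≤ n * p := by
      have := Pool.Agent.Lib.MP_fdf47d_co.SD.inc_le_n P L hl
      rw [hL] at this
      exact_mod_cast this
    have h3 : (inc P L : ℝ) ≤ m * (p + 1) := by
      have := Pool.Agent.Lib.MP_fdf47d_co.SD.inc_le_m P L hl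
      rw [hP] at this
      exact_mod_cast this
    have hp : (1 : ℝ) ≤ p := by exact_mod_cast (Fact.out : p.Prime).one_lt.le
    have hm0 : (0 : ℝ) ≤ m := by positivity
    have hn0 : (0 : ℝ) ≤ n := by positivity
    have h4 : (inc P L : ℝ) ≤ 2 * (m * p) := by nlinarith
    have hTT : 0 ≤ Pool.Agent.Lib.MP_fdf47d_co.SD.TT p m n :=
      Pool.Agent.Lib.MP_fdf47d_co.SD.TT_nonneg hm0 hn0
    rw [T, ← hT, mul_min_of_nonneg _ _ (by linarith : (0 : ℝ) ≤ 2 * C),
      mul_min_of_nonneg _ _ (by linarith : (0 : ℝ) ≤ 2 * C)]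
    refine le_min (by nlinarith) (le_min ?_ ?_)
    · have : 0 ≤ (m : ℝ) * p := by positivity
      nlinarith
    · have : 0 ≤ (n : ℝ) * p := by positivity
      nlinarith
  refine ⟨2 * C, by linarith, ?_⟩
  intro p _ m n hm hn hmp hnp
  refine ⟨?_, ?_⟩
  · intro P L hP hL hl h
    rcases h with h | ⟨S, rfl, hSS⟩
    · exact key p m n hm P L hP (by rw [← hP]; exact h) hL hl
    · have hg : (S.image graph) = S.image fun q => Pool.Agent.Lib.MP_fdf47d_co.SD.nv q.1 q.2 := by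
        refine image_congr fun q _ => ?_
        ext z
        simp [graph, Pool.Agent.Lib.MP_fdf47d_co.SD.mem_nv]
      have hS : S.card = n := by
        rw [← hL, hg, card_image_of_injective _ Pool.Agent.Lib.MP_fdf47d_co.SD.nv_injective]
      have h1 : inc P (S.image graph) =
          inc S (P.image fun z => Pool.Agent.Lib.MP_fdf47d_co.SD.nv (-z.1) z.2) := by
        rw [hg]
        exact Pool.Agent.Lib.MP_fdf47d_co.SD.inc_dual P S
      have hinj : (P.image fun z => Pool.Agent.Lib.MP_fdf47d_co.SD.nv (-z.1) z.2).card = m := by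
        rw [card_image_of_injective, hP]
        intro z w h
        have := Pool.Agent.Lib.MP_fdf47d_co.SD.nv_injective
          (a₁ := ((-z.1, z.2) : ZMod p × ZMod p)) (a₂ := ((-w.1, w.2) : ZMod p × ZMod p)) h
        simp only [Prod.mk.injEq, neg_inj] at this
        exact Prod.ext this.1 this.2
      rw [h1, hTsymm]
      refine key p n m hn S _ hS (by rw [← hS]; exact hSS) hinj ?_
      intro ℓ hℓ
      obtain ⟨z, _, rfl⟩ := mem_image.mp hℓ
      exact Pool.Agent.Lib.MP_fdf47d_co.SD.isLine_nv _ _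
  · intro hK
    obtain ⟨P, L, h1, h2, h3, h4, h5⟩ := Pool.Agent.Lib.MP_fdf47d_co.SD.lower hm hn hmp hnp
    refine ⟨P, L, h1, h3, h4, ?_, ?_⟩
    · have : ((P + P).card : ℝ) ≤ 6 * m := by exact_mod_cast h2
      rw [h1]
      have hm0 : (0 : ℝ) ≤ m := by positivity
      nlinarith
    · have h6 : inc P L = ∑ ℓ ∈ L, (P ∩ ℓ).card :=
        Pool.Agent.Lib.MP_fdf47d_co.SD.inc_eq_sum P L
      rw [h6, T, ← hT]
      push_cast
      exact h5

end Pool.Agent.Results.MP_fdf47d_co.SmallDoubling
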